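import Mathlib
import Pool.Agent.R508.FDfinal

set_option autoImplicit false

/-! MP_0d5181_co: the normalised logarithmic sizes of dilate sums of a fractional set are
approximated by those of a finite set of integers. Paper proof by helper163 (with a different
concentration argument), formalisation by helper508. -/

namespace Pool.Agent.Results.MP_0d5181_co.FractionalDilates

/-- a fractional dilate: a finitely supported map `ℤ → [0,∞)` -/
def IsFractionalDilate (g : ℤ → ℝ) : Prop := (∀ n, 0 ≤ g n) ∧ (Function.support g).Finite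

/-- a fractional set: a fractional dilate with values at most `1` -/
def IsFractionalSet (α : ℤ → ℝ) : Prop := IsFractionalDilate α ∧ ∀ n, α n ≤ 1

/-- the size `‖g‖ = inf_{0<p<1} Σ_n g(n)^p` -/
noncomputable def size (g : ℤ → ℝ) : ℝ := ⨅ p : Set.Ioo (0 : ℝ) 1, ∑ᶠ n, g n ^ (p : ℝ)

/-- the fractional dilate `α + k·α`, `(α + k·α)(n) = Σ_{i+kj=n} α(i)α(j)` -/
noncomputable def dil (α : ℤ → ℝ) (k n : ℤ) : ℝ :=
  ∑ᶠ p : ℤ × ℤ, if p.1 + k * p.2 = n then α p.1 * α p.2 else 0

/-- the finite set `S + k·S` -/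
def sumDil (S : Finset ℤ) (k : ℤ) : Finset ℤ := (S ×ˢ S).image fun p => p.1 + k * p.2

open Pool.Agent.R508.FD in
theorem dil_eq (α : ℤ → ℝ) (s : Finset ℤ) (hs : ∀ i, α i ≠ 0 → i ∈ s) (k n : ℤ) :
    dil α k n = gk s α k n := by
  unfold dil gk
  rw [finsum_eq_sum_of_support_subset (s := s ×ˢ s), Finset.sum_filter]
  intro p hp
  rw [Function.mem_support] at hp
  have h1 : α p.1 * α p.2 ≠ 0 := by
    intro h
    apply hp
    split_ifs <;> simp [h]
  exact Finset.mem_coe.2 (Finset.mem_product.2 ⟨hs _ (left_ne_zero_of_mul h1),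
    hs _ (right_ne_zero_of_mul h1)⟩)

open Pool.Agent.R508.FD in
theorem size_eq (g : ℤ → ℝ) (M : Finset ℤ) (hM : ∀ i, g i ≠ 0 → i ∈ M) :
    size g = ⨅ p : Set.Ioo (0 : ℝ) 1, FF M g p := by
  unfold size FF
  congr 1
  funext p
  refine finsum_eq_sum_of_support_subset _ ?_
  intro n hn
  rw [Function.mem_support] at hn
  refine Finset.mem_coe.2 (hM n ?_)
  intro h
  apply hn
  rw [h, Real.zero_rpow p.2.1.ne']

open Pool.Agent.R508.FD in
/-- Q1 is true: for every fractional set `α` with `‖α‖ > 1`, every `N ≥ 1` and `ε > 0` there is a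
finite set `S ⊂ ℤ` with at least two elements which approximates the ratios for all
`1 ≤ |k| ≤ N` -/
theorem result (α : ℤ → ℝ) (hα : IsFractionalSet α) (h1 : 1 < size α) (N : ℕ) (_hN : 1 ≤ N)
    (ε : ℝ) (hε : 0 < ε) :
    ∃ S : Finset ℤ, 2 ≤ S.card ∧ ∀ k : ℤ, 1 ≤ |k| → |k| ≤ N →
      |Real.log (size (dil α k)) / Real.log (size α)
        - Real.log (sumDil S k).card / Real.log S.card| < ε := by
  obtain ⟨⟨h0, hfin⟩, hle⟩ := hα
  set s := hfin.toFinset with hs
  have hsm : ∀ i, α i ≠ 0 → i ∈ s := fun i hi => hfin.mem_toFinset.2 hi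
  have hα' : ∀ i ∈ s, 0 < α i ∧ α i ≤ 1 := fun i hi =>
    ⟨lt_of_le_of_ne (h0 i) (Ne.symm (hfin.mem_toFinset.1 hi)), hle i⟩
  have hsz : size α = ∑ i ∈ s, α i := by
    rw [size_eq α s hsm, iInf_eq_min s α (fun i hi => (hα' i hi).1) 1 zero_le_one le_rfl]
    · simp [FF]
    · intro p hp0 hp1
      unfold FF
      refine Finset.sum_le_sum fun i hi => ?_
      exact Real.rpow_le_rpow_of_exponent_ge (hα' i hi).1 (hα' i hi).2 hp1
  rw [hsz] at h1
  obtain ⟨S, hS1, hS2⟩ := main hα' h1 N ε hε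
  refine ⟨S, hS1, fun k hk1 hk2 => ?_⟩
  have h2 := hS2 k hk1 hk2
  have h3 : size (dil α k) = ⨅ p : Set.Ioo (0 : ℝ) 1, FF (Mk s k) (gk s α k) p := by
    have e : dil α k = gk s α k := funext fun n => dil_eq α s hsm k n
    rw [e]
    refine size_eq _ _ fun n hn => ?_
    unfold gk at hn
    obtain ⟨p, hp, _⟩ := Finset.exists_ne_zero_of_sum_ne_zero hn
    obtain ⟨hp1, hp2⟩ := Finset.mem_filter.1 hp
    exact Finset.mem_image.2 ⟨p, hp1, hp2⟩
  have h4 : sumDil S k = sm k S := by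
    unfold sumDil sm
    simp only [smul_eq_mul]
  rw [h3, hsz, h4]
  exact h2

end Pool.Agent.Results.MP_0d5181_co.FractionalDilates
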